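import Pool.Agent.H93.CP.Targets

set_option autoImplicit false

namespace Pool.Agent.H19.CPT

open Set Filter Topology Pool.Agent.H93.CP

theorem pf_DCS : T_DCS := by
  intro G _ _ _
  obtain ⟨T, hT, hd⟩ := TopologicalSpace.exists_countable_dense G
  refine ⟨Subgroup.closure T, ?_, hd.mono Subgroup.subset_closure⟩
  have h1 : Countable T := hT.to_subtype
  have h2 : Countable (FreeGroup T) := inferInstanceAs (Countable (Quot _))
  have h3 : (FreeGroup.lift (Subtype.val : T → G)).range = Subgroup.closure T := by
    rw [FreeGroup.range_lift_eq_closure, Subtype.range_coe]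
  rw [← h3]
  exact (MonoidHom.rangeRestrict_surjective (FreeGroup.lift (Subtype.val : T → G))).countable

end Pool.Agent.H19.CPT
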