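import Pool.Agent.H93.CP.Targets

set_option autoImplicit false

namespace Pool.Agent.H19.CPT

open Set Filter Topology Pool.Agent.H93.CP

theorem pf_ORB (hLIM : T_LIM) : T_ORB := by
  intro G X _ _ _ _ _ Y b b' hb hb'
  constructor
  · rintro ⟨γ, hγ, rfl⟩
    exact ⟨γ.c b, hγ.2 b hb⟩
  · rintro ⟨m, hm⟩
    obtain ⟨z, hz, ⟨p, hp⟩, p', hp'⟩ := Y.zz b b' m hb hb' hm
    obtain ⟨γ₁, h1, h1'⟩ := hLIM G X Y b z p hb hz hp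
    obtain ⟨γ₂, h2, h2'⟩ := hLIM G X Y b' z p' hb' hz hp'
    refine ⟨γ₂⁻¹ * γ₁, Y.Γ.mul_mem (Y.Γ.inv_mem h2) h1, ?_⟩
    rw [HC.mul_h, HC.inv_h, h1', ← h2', Homeomorph.symm_apply_apply]

end Pool.Agent.H19.CPT
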