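import Pool.Agent.H93.CP.Targets

set_option autoImplicit false

namespace Pool.Agent.H19.CPT

open Set Filter Topology Pool.Agent.H93.CP

/-- the interleaving -/
private def jn (t s : ℕ → Bool) : ℕ → Bool := fun n => if n % 2 = 0 then s (n / 2) else t (n / 2)

private lemma jn_even (t s : ℕ → Bool) (n : ℕ) : jn t s (2 * n) = s n := by
  unfold jn
  rw [if_pos (by omega), show 2 * n / 2 = n by omega]

private lemma jn_odd (t s : ℕ → Bool) (n : ℕ) : jn t s (2 * n + 1) = t n := by
  unfold jn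
  rw [if_neg (by omega), show (2 * n + 1) / 2 = n by omega]

private lemma jn_inj (t : ℕ → Bool) {s s' : ℕ → Bool} (h : jn t s = jn t s') : s = s' := by
  funext n
  rw [← jn_even t s n, ← jn_even t s' n, h]

private lemma jn_meas (t : ℕ → Bool) : Measurable (jn t) := by
  refine measurable_pi_iff.2 fun n => ?_
  unfold jn
  by_cases h : n % 2 = 0
  · simp only [h, if_true]
    exact measurable_pi_apply _
  · simp only [h, if_false]
    exact measurable_const

theorem pf_TPB (_hPCO : T_PCO) (hPBD : T_PBD) (hORB : T_ORB) : T_TPB := by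
  intro G X _ _ _ _ _ Y _ _ hP
  obtain ⟨f, hf, hfi⟩ := hP
  have hinj : Function.Injective f := by
    intro u v huv
    by_contra hne
    exact hfi u v hne 1 (by rw [one_smul, huv])
  obtain ⟨-, hc, -⟩ := hPBD G Y.S
  have hA : {s : ℕ → Bool | ¬ Y.S.Inf (f s)}.Countable := hc.preimage hinj
  have hB : ((fun (s : ℕ → Bool) (n : ℕ) => s (2 * n + 1)) ''
      {s : ℕ → Bool | ¬ Y.S.Inf (f s)}).Countable := hA.image _
  obtain ⟨t, ht⟩ : ∃ t : ℕ → Bool, t ∉ (fun (s : ℕ → Bool) (n : ℕ) => s (2 * n + 1)) ''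
      {s : ℕ → Bool | ¬ Y.S.Inf (f s)} := by
    by_contra hcon
    push Not at hcon
    have h1 : (univ : Set (ℕ → Bool)).Countable := hB.mono fun t _ => hcon t
    have h2 : Countable (ℕ → Bool) := Set.countable_univ_iff.1 h1
    obtain ⟨g, hg⟩ := exists_surjective_nat (ℕ → Bool)
    obtain ⟨n, hn⟩ := hg fun n => !(g n n)
    have h3 := congrFun hn n
    simp at h3
  have hI : ∀ u, Y.S.Inf (f (jn t u)) := by
    intro u
    by_contra hcon
    refine ht ⟨jn t u, hcon, ?_⟩
    funext n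
    exact jn_odd t u n
  have hm : Measurable fun u : ℕ → Bool =>
      (⟨f (jn t u), hI u⟩ : {b : Y.S.Path // Y.S.Inf b}) :=
    (hf.comp (jn_meas t)).subtype_mk
  have hBo : BorelSpace {b : Y.S.Path // Y.S.Inf b} := Subtype.borelSpace _
  have hY := Y.meas
  rw [← hBo.measurable_eq] at hY
  refine ⟨fun u => Y.P (f (jn t u)), hY.comp hm, ?_⟩
  intro u v huv g hg
  obtain ⟨γ, hγ, h1⟩ := (hORB G X Y (f (jn t u)) (f (jn t v)) (hI u) (hI v)).2 ⟨g, hg⟩
  refine hfi (jn t u) (jn t v) (fun h => huv (jn_inj t h)) ⟨γ, hγ⟩ ?_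
  exact h1

end Pool.Agent.H19.CPT
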